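import Mathlib
import Pool.Agent.Lib_helper66.P2GD.Defs

/-!
# A smooth coercive function which is linear on a ball

`fn S K X = ⟪S, X⟫ + smoothTransition (‖X‖² - K) * ‖X‖²`.
-/

open Filter Topology Matrix
open scoped Matrix.Norms.Frobenius ContDiff

namespace P2GD

section Func

variable {m n : ℕ}

/-- `⟪S, X⟫`. -/
def lf (S X : Matrix (Fin m) (Fin n) ℝ) : ℝ := ∑ i, ∑ j, S i j * X i j

/-- `⟪S, X⟫ + smoothTransition (‖X‖² - K) * ‖X‖²`. -/
noncomputable def fn (S : Matrix (Fin m) (Fin n) ℝ) (K : ℝ) (X : Matrix (Fin m) (Fin n) ℝ) : ℝ :=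
  lf S X + Real.smoothTransition (‖X‖ ^ 2 - K) * ‖X‖ ^ 2

theorem frob_sq (A : Matrix (Fin m) (Fin n) ℝ) : ‖A‖ ^ 2 = ∑ i, ∑ j, A i j ^ 2 := by
  rw [Matrix.frobenius_norm_def]
  have h0 : (0:ℝ) ≤ ∑ i, ∑ j, ‖A i j‖ ^ (2:ℝ) :=
    Finset.sum_nonneg fun i _ => Finset.sum_nonneg fun j _ => Real.rpow_nonneg (norm_nonneg _) _
  rw [← Real.sqrt_eq_rpow, Real.sq_sqrt h0]
  refine Finset.sum_congr rfl fun i _ => Finset.sum_congr rfl fun j _ => ?_
  rw [Real.rpow_two, Real.norm_eq_abs, sq_abs]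

theorem entry_isLinear (i : Fin m) (j : Fin n) :
    IsLinearMap ℝ (fun X : Matrix (Fin m) (Fin n) ℝ => X i j) where
  map_add _ _ := rfl
  map_smul _ _ := rfl

theorem contDiff_entry (i : Fin m) (j : Fin n) :
    ContDiff ℝ ∞ (fun X : Matrix (Fin m) (Fin n) ℝ => X i j) :=
  (LinearMap.toContinuousLinearMap (entry_isLinear i j).mk').contDiff

theorem contDiff_lf (S : Matrix (Fin m) (Fin n) ℝ) : ContDiff ℝ ∞ (lf S) := by
  unfold lf
  exact ContDiff.sum fun i _ => ContDiff.sum fun j _ => contDiff_const.mul (contDiff_entry i j)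

theorem contDiff_normSq : ContDiff ℝ ∞ (fun X : Matrix (Fin m) (Fin n) ℝ => ‖X‖ ^ 2) := by
  simp only [frob_sq]
  exact ContDiff.sum fun i _ => ContDiff.sum fun j _ => (contDiff_entry i j).pow 2

theorem contDiff_fn (S : Matrix (Fin m) (Fin n) ℝ) (K : ℝ) : ContDiff ℝ ∞ (fn S K) := by
  unfold fn
  exact (contDiff_lf S).add
    ((Real.smoothTransition.contDiff.comp (contDiff_normSq.sub contDiff_const)).mul
      contDiff_normSq)

/-- (b) the value inside the ball -/
theorem fn_eq {S : Matrix (Fin m) (Fin n) ℝ} {K : ℝ} {X : Matrix (Fin m) (Fin n) ℝ}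
    (h : ‖X‖ ^ 2 ≤ K) : fn S K X = lf S X := by
  rw [fn, Real.smoothTransition.zero_of_nonpos (by linarith), zero_mul, add_zero]

theorem lf_single (S : Matrix (Fin m) (Fin n) ℝ) (i : Fin m) (j : Fin n) :
    lf S (Matrix.single i j 1) = S i j := by
  simp only [lf, Matrix.single_apply]
  simp [ite_and]

theorem lf_isLinear (S : Matrix (Fin m) (Fin n) ℝ) : IsLinearMap ℝ (lf S) where
  map_add X Y := by simp [lf, mul_add, Finset.sum_add_distrib]
  map_smul a X := by simp [lf, mul_left_comm, Finset.mul_sum]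

theorem fderiv_lf (S X V : Matrix (Fin m) (Fin n) ℝ) : fderiv ℝ (lf S) X V = lf S V := by
  have h : HasFDerivAt (lf S) (LinearMap.toContinuousLinearMap (lf_isLinear S).mk') X :=
    (LinearMap.toContinuousLinearMap (lf_isLinear S).mk').hasFDerivAt
  rw [h.fderiv]
  rfl

theorem fn_eventuallyEq {S : Matrix (Fin m) (Fin n) ℝ} {K : ℝ} {X : Matrix (Fin m) (Fin n) ℝ}
    (h : ‖X‖ ^ 2 < K) : fn S K =ᶠ[𝓝 X] lf S := by
  have hc : Continuous fun Y : Matrix (Fin m) (Fin n) ℝ => ‖Y‖ ^ 2 := contDiff_normSq.continuous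
  have : ∀ᶠ Y in 𝓝 X, ‖Y‖ ^ 2 < K := hc.continuousAt.eventually_lt continuousAt_const h
  filter_upwards [this] with Y hY
  exact fn_eq hY.le

/-- (b) the gradient inside the ball -/
theorem grad_fn {S : Matrix (Fin m) (Fin n) ℝ} {K : ℝ} {X : Matrix (Fin m) (Fin n) ℝ}
    (h : ‖X‖ ^ 2 < K) : grad (fn S K) X = S := by
  ext i j
  rw [grad, Matrix.of_apply, (fn_eventuallyEq h).fderiv_eq, fderiv_lf, lf_single]

theorem differentiable_fn (S : Matrix (Fin m) (Fin n) ℝ) (K : ℝ) :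
    Differentiable ℝ (fn S K) := (contDiff_fn S K).differentiable (by simp)

/-- the gradient represents the derivative -/
theorem fderiv_eq_grad {f : Matrix (Fin m) (Fin n) ℝ → ℝ} (X V : Matrix (Fin m) (Fin n) ℝ) :
    fderiv ℝ f X V = lf (grad f X) V := by
  conv_lhs => rw [Matrix.matrix_eq_sum_single V]
  rw [map_sum, lf]
  refine Finset.sum_congr rfl fun i _ => ?_
  rw [map_sum]
  refine Finset.sum_congr rfl fun j _ => ?_
  have : Matrix.single i j (V i j) = V i j • Matrix.single i j (1 : ℝ) := by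
    rw [Matrix.smul_single, smul_eq_mul, mul_one]
  rw [this, map_smul, grad, Matrix.of_apply, smul_eq_mul, mul_comm]

theorem contDiff_grad {f : Matrix (Fin m) (Fin n) ℝ → ℝ} (hf : ContDiff ℝ ∞ f) :
    ContDiff ℝ ∞ (grad f) := by
  have h1 : grad f = fun X => ∑ i, ∑ j,
      (fderiv ℝ f X (Matrix.single i j 1)) • Matrix.single i j (1 : ℝ) := by
    funext X
    conv_lhs => rw [Matrix.matrix_eq_sum_single (grad f X)]
    refine Finset.sum_congr rfl fun i _ => Finset.sum_congr rfl fun j _ => ?_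
    rw [Matrix.smul_single, smul_eq_mul, mul_one, grad, Matrix.of_apply]
  rw [h1]
  have h2 := ContDiff.fderiv_right (m := ∞) hf (by simp)
  refine ContDiff.sum fun i _ => ContDiff.sum fun j _ => ?_
  have h3 : ContDiff ℝ ∞ (fun X => fderiv ℝ f X (Matrix.single i j 1)) :=
    h2.clm_apply contDiff_const
  have h4 : ContDiff ℝ ∞ (fun _ : Matrix (Fin m) (Fin n) ℝ =>
    (Matrix.single i j (1 : ℝ) : Matrix (Fin m) (Fin n) ℝ)) := contDiff_const
  exact h3.smul h4

/-- (d) -/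
theorem locallyLipschitz_grad {f : Matrix (Fin m) (Fin n) ℝ → ℝ} (hf : ContDiff ℝ ∞ f) :
    LocallyLipschitz (grad f) :=
  ContDiff.locallyLipschitz (𝕂 := ℝ) ((contDiff_grad hf).of_le (by exact_mod_cast le_top))

theorem locallyLipschitz_grad_fn (S : Matrix (Fin m) (Fin n) ℝ) (K : ℝ) :
    LocallyLipschitz (grad (fn S K)) := locallyLipschitz_grad (contDiff_fn S K)

theorem abs_lf_le (S X : Matrix (Fin m) (Fin n) ℝ) : |lf S X| ≤ ‖S‖ * ‖X‖ := by
  apply abs_le_of_sq_le_sq _ (by positivity)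
  rw [mul_pow, frob_sq, frob_sq, lf]
  have h := Finset.sum_mul_sq_le_sq_mul_sq (Finset.univ : Finset (Fin m × Fin n))
    (fun p => S p.1 p.2) (fun p => X p.1 p.2)
  simpa only [← Finset.univ_product_univ, Finset.sum_product] using h

/-- (c) coercivity -/
theorem tendsto_fn (S : Matrix (Fin m) (Fin n) ℝ) (K : ℝ) :
    Tendsto (fn S K) (cocompact (Matrix (Fin m) (Fin n) ℝ)) atTop := by
  have hn : Tendsto (fun X : Matrix (Fin m) (Fin n) ℝ => ‖X‖) (cocompact _) atTop :=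
    tendsto_norm_cocompact_atTop
  have hq : Tendsto (fun x : ℝ => x * (x - ‖S‖)) atTop atTop :=
    tendsto_id.atTop_mul_atTop₀ (tendsto_atTop_add_const_right _ _ tendsto_id)
  refine tendsto_atTop_mono' _ ?_ (hq.comp hn)
  have h1 : ∀ᶠ X : Matrix (Fin m) (Fin n) ℝ in cocompact _, max 1 (K + 1) ≤ ‖X‖ :=
    hn.eventually_ge_atTop _
  filter_upwards [h1] with X hX
  have h1X : 1 ≤ ‖X‖ := (le_max_left _ _).trans hX
  have h2X : K + 1 ≤ ‖X‖ := (le_max_right _ _).trans hX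
  have h3 : ‖X‖ ≤ ‖X‖ ^ 2 := by nlinarith
  rw [fn, Real.smoothTransition.one_of_one_le (by linarith), one_mul]
  have h4 := (abs_le.mp (abs_lf_le S X)).1
  simp only [Function.comp]
  nlinarith

/-- bounded below -/
theorem exists_min_fn (S : Matrix (Fin m) (Fin n) ℝ) (K : ℝ) :
    ∃ X₀, ∀ X, fn S K X₀ ≤ fn S K X :=
  (contDiff_fn S K).continuous.exists_forall_le (tendsto_fn S K)

/-- compact sublevel sets -/
theorem isCompact_sublevel_fn (S : Matrix (Fin m) (Fin n) ℝ) (K a : ℝ) :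
    IsCompact {X | fn S K X ≤ a} := by
  have hcl : IsClosed {X | fn S K X ≤ a} :=
    isClosed_le (contDiff_fn S K).continuous continuous_const
  have h1 : ∀ᶠ X in cocompact (Matrix (Fin m) (Fin n) ℝ), a < fn S K X :=
    (tendsto_fn S K).eventually_gt_atTop a
  obtain ⟨C, hC, hCs⟩ := mem_cocompact.mp h1
  refine hC.of_isClosed_subset hcl fun X hX => ?_
  by_contra hXC
  have := hCs hXC
  exact absurd (show a < fn S K X from this) (not_lt.mpr hX)

end Func

end P2GD
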